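import Pool.Agent.H5.CW4

namespace Pool.Agent.Results.MP_ccaf84_co.Yes
open Pool.Agent.H5.CW

theorem result : ∀ k : ℕ, Odd k → 5 ≤ k → ∀ n : ℕ, 1 ≤ n →
    cycCount (alt true k) n = cycCount (alt false k) n :=
  fun k hk h5 n hn => main k hk h5 n hn

end Pool.Agent.Results.MP_ccaf84_co.Yes
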